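import Mathlib

set_option autoImplicit false

namespace Pool.Agent.Results.MP_fb12c6_gt.Main

open Set Cardinal

def IsBallean {X : Type} (ℰ : Set (Set (X × X))) : Prop :=
  (∀ E ∈ ℰ, ∀ x, (x, x) ∈ E) ∧
    (∀ E ∈ ℰ, ∀ F ∈ ℰ, ∃ D ∈ ℰ, ∀ x y z, (x, y) ∈ E → (z, y) ∈ F → (x, z) ∈ D) ∧
    ∀ x y, ∃ E ∈ ℰ, (x, y) ∈ E

def Bounded {X : Type} (ℰ : Set (Set (X × X))) (B : Set X) : Prop :=
  ∃ E ∈ ℰ, ∃ x, B ⊆ {y | (x, y) ∈ E}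

def sq {X : Type} (ℰ : Set (Set (X × X))) : Set (Set ((X × X) × (X × X))) :=
  {G | ∃ E ∈ ℰ, ∃ F ∈ ℰ, G = {p | (p.1.1, p.2.1) ∈ E ∧ (p.1.2, p.2.2) ∈ F}}

def img {X : Type} (E : Set (X × X)) (A : Set X) : Set X := {y | ∃ a ∈ A, (a, y) ∈ E}

noncomputable def cofAst {X : Type} (ℰ : Set (Set (X × X))) : Cardinal :=
  sInf {c | ∃ 𝒞 ⊆ ℰ, #𝒞 = c ∧ ∀ E ∈ ℰ, ∃ C ∈ 𝒞, Bounded (sq ℰ) (E \ C)}

noncomputable def cofAt {X : Type} (ℰ : Set (Set (X × X))) (A : Set X) : Cardinal :=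
  sInf {c | ∃ 𝒞 ⊆ ℰ, #𝒞 = c ∧ ∀ E ∈ ℰ, ∃ C ∈ 𝒞, Bounded ℰ (img E A \ img C A)}

noncomputable def cofStar {X : Type} (ℰ : Set (Set (X × X))) : Cardinal := ⨆ A, cofAt ℰ A

def LF : Set (Set (ℕ × ℕ)) :=
  {E | (∀ x, (x, x) ∈ E) ∧ ∀ x, {y | (x, y) ∈ E}.Finite ∧ {y | (y, x) ∈ E}.Finite}

lemma mem_LF {S : Set (ℕ × ℕ)} (h : ∀ x, {y | (x, y) ∈ S}.Finite ∧ {y | (y, x) ∈ S}.Finite) :
    {p | p.1 = p.2} ∪ S ∈ LF :=
  ⟨fun _ => Or.inl rfl, fun x => ⟨((finite_singleton x).union (h x).1).subset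
    fun _ h => h.imp_left Eq.symm, (finite_singleton x).union (h x).2⟩⟩

lemma bdd {B : Set ℕ} (h : B.Finite) : Bounded LF B :=
  ⟨_, mem_LF (S := {0} ×ˢ B) fun _ => ⟨h.subset fun _ h => h.2,
    (finite_singleton 0).subset fun _ h => h.1⟩, 0, fun _ h => Or.inr ⟨rfl, h⟩⟩

theorem result : ∃ (X : Type) (_ : Nonempty X) (ℰ : Set (Set (X × X))),
    IsBallean ℰ ∧ cofStar ℰ < cofAst ℰ := by
  have h0 : {p | p.1 = p.2} ∪ ∅ ∈ LF := mem_LF fun _ => ⟨finite_empty, finite_empty⟩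
  refine ⟨ℕ, inferInstance, LF, ⟨fun E h => h.1, fun E hE F hF => ⟨{p | ∃ y, (p.1, y) ∈ E ∧
    (p.2, y) ∈ F}, ⟨fun x => ⟨x, hE.1 x, hF.1 x⟩, fun x => ⟨((hE.2 x).1.biUnion fun y _ =>
      (hF.2 y).2).subset fun z ⟨y, h, h'⟩ => mem_biUnion h h', ((hF.2 x).1.biUnion fun y _ =>
      (hE.2 y).2).subset fun z ⟨y, h, h'⟩ => mem_biUnion h' h⟩⟩, fun _ y _ h h' => ⟨y, h, h'⟩⟩,
    fun x y => ⟨_, mem_LF (S := {(x, y)}) fun _ => ⟨(finite_singleton y).subset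
      fun _ h => congrArg Prod.snd h, (finite_singleton x).subset fun _ h => congrArg Prod.fst h⟩,
      Or.inr rfl⟩⟩, lt_of_le_of_lt (b := 1) (ciSup_le' fun A => ?_) ?_⟩
  · suffices ∃ C ∈ LF, ∀ E ∈ LF, (img E A \ img C A).Finite by
      obtain ⟨C, h1, h2⟩ := this
      exact csInf_le' ⟨{C}, singleton_subset_iff.2 h1, mk_singleton C,
        fun E hE => ⟨C, rfl, bdd (h2 E hE)⟩⟩
    by_cases hA : A.Finite
    · exact ⟨_, h0, fun E hE => (hA.biUnion fun a _ => (hE.2 a).1).subset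
        fun y ⟨⟨a, h, h'⟩, _⟩ => mem_biUnion h h'⟩
    choose s h1 h2 using Set.Infinite.exists_gt hA
    refine ⟨_, mem_LF (S := {p | p.1 = s p.2}) fun x => ⟨(finite_lt_nat x).subset
      fun y (h : x = s y) => h ▸ h2 y, finite_singleton (s x)⟩, fun E _ => finite_empty.subset
        fun y h => h.2 ⟨s y, h1 y, Or.inr rfl⟩⟩
  · obtain ⟨𝒞, h1, h2, h3⟩ := csInf_mem (s := {c | ∃ 𝒞 ⊆ LF, #𝒞 = c ∧ ∀ E ∈ LF, ∃ C ∈ 𝒞,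
      Bounded (sq LF) (E \ C)}) ⟨_, LF, subset_rfl, rfl, fun E hE =>
        ⟨E, hE, _, ⟨E, hE, E, hE, rfl⟩, (0, 0), by simp⟩⟩
    refine lt_of_not_ge fun h => ?_
    rw [cofAst, ← h2, le_one_iff_subsingleton, subsingleton_coe] at h
    obtain ⟨C, h4, -⟩ := h3 _ h0
    choose g h5 h6 using fun x => ((h1 h4).2 x).1.infinite_compl.exists_gt x
    obtain ⟨C', h7, _, ⟨E, h8, F, -, rfl⟩, p, h9⟩ := h3 _ (mem_LF (S := {p | p.2 = g p.1})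
      fun x => ⟨finite_singleton (g x), (finite_lt_nat x).subset fun y (h : x = g y) => h ▸ h6 y⟩)
    obtain ⟨x, hx⟩ := (h8.2 p.1).1.infinite_compl.nonempty
    exact hx (h9 (a := (x, g x)) ⟨Or.inr rfl, h h4 h7 ▸ h5 x⟩).1

end Pool.Agent.Results.MP_fb12c6_gt.Main
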